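import Pool.Agent.Helper82.EN.Stmts2

set_option autoImplicit false

/-! # ENCODING BY TM, module COL: not-all-equal satisfiability and 3-colourings -/

namespace Pool.Agent.Helper82.EN

open Pool.Agent.Helper53.CL (Nae)

theorem col_lt (l : List (ℕ × ℕ × ℕ)) (t : ℕ × ℕ × ℕ) (ht : t ∈ l) :
    t.1 + t.2.1 + t.2.2 + 1 ≤ nvar l := by
  unfold nvar
  exact List.single_le_sum (fun _ _ => Nat.zero_le _) _ (List.mem_map.2 ⟨t, ht, rfl⟩)

theorem col_tri : ∀ A B C : Bool, ¬ (A = B ∧ B = C) → ∃ p q r : Fin 3,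
    p ≠ (if A then 1 else 0) ∧ q ≠ (if B then 1 else 0) ∧ r ≠ (if C then 1 else 0) ∧
    p ≠ q ∧ q ≠ r ∧ p ≠ r := by decide

theorem col_eq : ∀ z x y : Fin 3, z ≠ x → z ≠ y → (decide (x = z + 1) = decide (y = z + 1)) →
    x = y := by decide

theorem col_no : ∀ x p q r : Fin 3, p ≠ x → q ≠ x → r ≠ x → p ≠ q → q ≠ r → p ≠ r → False := by
  decide

theorem col_mem (l : List (ℕ × ℕ × ℕ)) (e : ℕ × ℕ) : e ∈ edges l ↔
    (∃ a < nvar l, e = (0, 1 + a)) ∨
    ∃ (i : ℕ) (t : ℕ × ℕ × ℕ), l[i]? = some t ∧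
      (e = (1 + nvar l + 3 * i, 1 + nvar l + 3 * i + 1) ∨
       e = (1 + nvar l + 3 * i + 1, 1 + nvar l + 3 * i + 2) ∨
       e = (1 + nvar l + 3 * i, 1 + nvar l + 3 * i + 2) ∨
       e = (1 + nvar l + 3 * i, 1 + t.1) ∨
       e = (1 + nvar l + 3 * i + 1, 1 + t.2.1) ∨
       e = (1 + nvar l + 3 * i + 2, 1 + t.2.2)) := by
  unfold edges
  rw [List.mem_append]
  refine or_congr ?_ ?_
  · rw [List.mem_map]
    constructor
    · rintro ⟨a, ha, rfl⟩
      exact ⟨a, List.mem_range.1 ha, rfl⟩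
    · rintro ⟨a, ha, rfl⟩
      exact ⟨a, List.mem_range.2 ha, rfl⟩
  · rw [List.mem_flatMap]
    constructor
    · rintro ⟨⟨t, i⟩, ht, he⟩
      refine ⟨i, t, List.mem_zipIdx_iff_getElem?.1 ht, ?_⟩
      simpa using he
    · rintro ⟨i, t, ht, he⟩
      refine ⟨(t, i), List.mem_zipIdx_iff_getElem?.2 ht, ?_⟩
      simpa using he

theorem col_fwd (l : List (ℕ × ℕ × ℕ)) (h : ℕ → Bool) (hh : ∀ t ∈ l, Nae h t) :
    Col (edges l) := by
  have hG : ∀ i : ℕ, ∃ g : ℕ → Fin 3, ∀ t, l[i]? = some t →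
      g 0 ≠ (if h t.1 then 1 else 0) ∧ g 1 ≠ (if h t.2.1 then 1 else 0) ∧
      g 2 ≠ (if h t.2.2 then 1 else 0) ∧ g 0 ≠ g 1 ∧ g 1 ≠ g 2 ∧ g 0 ≠ g 2 := by
    intro i
    rcases hi : l[i]? with _ | t
    · exact ⟨fun _ => 0, fun t ht => by simp at ht⟩
    · obtain ⟨p, q, r, h1⟩ := col_tri (h t.1) (h t.2.1) (h t.2.2)
        (hh t (List.mem_of_getElem? hi))
      refine ⟨fun n => if n = 0 then p else if n = 1 then q else r, fun t' ht' => ?_⟩
      obtain rfl : t = t' := by simpa using ht'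
      simpa using h1
  choose G hG using hG
  set c : ℕ → Fin 3 := fun v => if v = 0 then 2 else if v ≤ nvar l then
    (if h (v - 1) then 1 else 0) else G ((v - 1 - nvar l) / 3) ((v - 1 - nvar l) % 3) with hc
  have c0 : c 0 = 2 := by rw [hc]; simp
  have cv : ∀ a, a < nvar l → c (1 + a) = if h a then 1 else 0 := by
    intro a ha
    rw [hc]
    simp only
    rw [if_neg (by omega), if_pos (by omega)]
    have : 1 + a - 1 = a := by omega
    rw [this]
  have cg : ∀ i r, r < 3 → c (1 + nvar l + 3 * i + r) = G i r := by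
    intro i r hr
    rw [hc]
    simp only
    rw [if_neg (by omega), if_neg (by omega)]
    have h1 : (1 + nvar l + 3 * i + r - 1 - nvar l) / 3 = i := by omega
    have h2 : (1 + nvar l + 3 * i + r - 1 - nvar l) % 3 = r := by omega
    rw [h1, h2]
  refine ⟨c, fun e he => ?_⟩
  rw [col_mem] at he
  rcases he with ⟨a, ha, rfl⟩ | ⟨i, t, ht, he⟩
  · simp only
    rw [c0, cv a ha]
    split_ifs <;> decide
  · have hg := hG i t ht
    have hlt := col_lt l t (List.mem_of_getElem? ht)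
    have e0 := cg i 0 (by omega)
    have e1 := cg i 1 (by omega)
    have e2 := cg i 2 (by omega)
    rw [add_zero] at e0
    rcases he with rfl | rfl | rfl | rfl | rfl | rfl <;> simp only
    · rw [e0, e1]; exact hg.2.2.2.1
    · rw [e1, e2]; exact hg.2.2.2.2.1
    · rw [e0, e2]; exact hg.2.2.2.2.2
    · rw [e0, cv t.1 (by omega)]; exact hg.1
    · rw [e1, cv t.2.1 (by omega)]; exact hg.2.1
    · rw [e2, cv t.2.2 (by omega)]; exact hg.2.2.1

theorem col_bwd (l : List (ℕ × ℕ × ℕ)) (hl : Col (edges l)) :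
    ∃ h : ℕ → Bool, ∀ t ∈ l, Nae h t := by
  obtain ⟨c, hc⟩ := hl
  refine ⟨fun a => decide (c (1 + a) = c 0 + 1), fun t ht => ?_⟩
  rintro ⟨h1, h2⟩
  obtain ⟨i, hi⟩ := List.mem_iff_getElem?.1 ht
  have hlt := col_lt l t ht
  have hv : ∀ a, a < nvar l → c 0 ≠ c (1 + a) := fun a ha =>
    hc (0, 1 + a) ((col_mem l _).2 (Or.inl ⟨a, ha, rfl⟩))
  have hE : ∀ x y : ℕ, ((x, y) = (1 + nvar l + 3 * i, 1 + nvar l + 3 * i + 1) ∨
       (x, y) = (1 + nvar l + 3 * i + 1, 1 + nvar l + 3 * i + 2) ∨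
       (x, y) = (1 + nvar l + 3 * i, 1 + nvar l + 3 * i + 2) ∨
       (x, y) = (1 + nvar l + 3 * i, 1 + t.1) ∨
       (x, y) = (1 + nvar l + 3 * i + 1, 1 + t.2.1) ∨
       (x, y) = (1 + nvar l + 3 * i + 2, 1 + t.2.2)) → c x ≠ c y :=
    fun x y he => hc (x, y) ((col_mem l (x, y)).2 (Or.inr ⟨i, t, hi, he⟩))
  have h3 : c (1 + t.1) = c (1 + t.2.1) :=
    col_eq _ _ _ (hv _ (by omega)) (hv _ (by omega)) h1
  have h4 : c (1 + t.2.1) = c (1 + t.2.2) :=
    col_eq _ _ _ (hv _ (by omega)) (hv _ (by omega)) h2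
  have e1 := hE _ _ (Or.inl rfl)
  have e2 := hE _ _ (Or.inr (Or.inl rfl))
  have e3 := hE _ _ (Or.inr (Or.inr (Or.inl rfl)))
  have e4 := hE _ _ (Or.inr (Or.inr (Or.inr (Or.inl rfl))))
  have e5 := hE _ _ (Or.inr (Or.inr (Or.inr (Or.inr (Or.inl rfl)))))
  have e6 := hE _ _ (Or.inr (Or.inr (Or.inr (Or.inr (Or.inr rfl)))))
  rw [← h4] at e6
  rw [← h3] at e5 e6
  exact col_no _ _ _ _ e4 e5 e6 e1 e2 e3

theorem st_COL : ST_COL := by
  intro l
  refine ⟨⟨fun ⟨h, hh⟩ => col_fwd l h hh, col_bwd l⟩, fun e he => ?_⟩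
  rw [col_mem] at he
  unfold nver
  rcases he with ⟨a, ha, rfl⟩ | ⟨i, t, ht, he⟩
  · exact ⟨by simp only; omega, by simp only; omega⟩
  · have hlt := col_lt l t (List.mem_of_getElem? ht)
    have hi : i < l.length := by
      by_contra hcon
      rw [List.getElem?_eq_none (by omega)] at ht
      exact absurd ht (by simp)
    rcases he with rfl | rfl | rfl | rfl | rfl | rfl <;> simp only <;> constructor <;> omega

end Pool.Agent.Helper82.EN
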